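import Pool.Agent.Helper18_CM.Lau
import Pool.Agent.Helper95_CM.StK

/-!
# CM project: module FLAT
-/

set_option autoImplicit false
set_option linter.unusedSectionVars false

noncomputable section

namespace Pool.Agent.Helper95_CM.H18

open Pool.Agent.Helper95_CM

section
variable {k : Type} [Field k] [CharZero k] {I : Type} [Fintype I] [DecidableEq I]

lemma solve_ad (Q0 B : Matrix I I k) (h : Q0 ^ Fintype.card I = 0) {E : ℕ} (hE : 0 < E) :
    ∃ X : Matrix I I k, (E : k) • X + Q0 * X - X * Q0 = B := by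
  have hn : IsNilpotent Q0 := ⟨_, h⟩
  have h1 : IsNilpotent (LinearMap.mulLeft k Q0) := by
    obtain ⟨n, hn⟩ := hn
    refine ⟨n, ?_⟩
    rw [LinearMap.pow_mulLeft, hn]
    ext; simp
  have h2 : IsNilpotent (LinearMap.mulRight k Q0) := by
    obtain ⟨n, hn⟩ := hn
    refine ⟨n, ?_⟩
    rw [LinearMap.pow_mulRight, hn]
    ext; simp
  have h3 : IsNilpotent (LinearMap.mulLeft k Q0 - LinearMap.mulRight k Q0) :=
    (LinearMap.commute_mulLeft_right (R := k) Q0 Q0).isNilpotent_sub h1 h2
  have h4 : IsUnit ((algebraMap k (Module.End k (Matrix I I k))) (E : k)) := by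
    apply IsUnit.map
    exact IsUnit.mk0 _ (by exact_mod_cast hE.ne')
  have h5 := h3.isUnit_add_left_of_commute h4 (Algebra.commutes (E : k) _).symm
  rw [Module.End.isUnit_iff] at h5
  obtain ⟨X, hX⟩ := h5.2 B
  refine ⟨X, ?_⟩
  rw [← hX]
  simp only [LinearMap.add_apply, LinearMap.sub_apply, LinearMap.mulLeft_apply,
    LinearMap.mulRight_apply, Module.algebraMap_end_apply]
  abel

lemma flat_step (Q : Matrix I I (LaurentSeries k)) (E : ℕ) (hE : 0 < E) (hQ : PolF Q)
    (h : (mco 0 Q) ^ Fintype.card I = 0) (h0 : ∀ m : ℤ, 0 < m → m < E → mco m Q = 0) :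
    ∃ G Gi Q' : Matrix I I (LaurentSeries k), Gauge (tht k) G Gi Q Q' ∧ PolF Q' ∧ PolF G ∧
      PolF Gi ∧ LPol G ∧ mco 0 Q' = mco 0 Q ∧
      ∀ m : ℤ, 0 < m → m < ((E + 1 : ℕ) : ℤ) → mco m Q' = 0 := by
  obtain ⟨X, hX⟩ := solve_ad (mco 0 Q) (-mco (E : ℤ) Q) h hE
  set T : LaurentSeries k := HahnSeries.single (E : ℤ) (1 : k) with hT
  set XC : Matrix I I (LaurentSeries k) := X.map (HahnSeries.C : k →+* LaurentSeries k) with hXC
  set U : Matrix I I (LaurentSeries k) := 1 + T • XC with hU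
  have hXCF : PolF XC := polF_C X
  have hTF : PolF (T • XC) := by
    intro i j
    rw [Matrix.smul_apply, smul_eq_mul]
    exact ordGe_mono (by omega) (ordGe_mul_gen (ordGe_single (E : ℤ) (1 : k)) (hXCF i j))
  have hUF : PolF U := polF_add polF_one hTF
  have hXCm : ∀ m : ℤ, mco m XC = if m = 0 then X else 0 := by
    intro m
    have := mco_mul_C m (1 : Matrix I I (LaurentSeries k)) X
    rw [Matrix.one_mul, mco_one] at this
    rw [hXC, this]
    split_ifs <;> simp
  have hU0 : mco 0 U = 1 := by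
    rw [hU, mco_add, mco_one, if_pos rfl, hT, mco_single_smul, hXCm, if_neg (by omega), add_zero]
  obtain ⟨V, hVF, hUV, hVU⟩ := exists_polF_inv hUF (by rw [hU0, Matrix.det_one]; exact isUnit_one)
  set Q' := V * (U.map (tht k) + Q * U) with hQ'
  have hQ'F : PolF Q' := polF_mul hVF (polF_add (polF_tht hUF) (polF_mul hQ hUF))
  have heq : U * Q' = U.map (tht k) + Q * U := by rw [hQ', ← Matrix.mul_assoc, hUV, Matrix.one_mul]
  -- coefficients
  have hL : ∀ m : ℤ, mco m (U * Q') = mco m Q' + X * mco (m - E) Q' := by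
    intro m
    rw [hU, Matrix.add_mul, Matrix.one_mul, mco_add, Matrix.smul_mul, hT, mco_single_smul,
      hXC, mco_C_mul]
  have hR : ∀ m : ℤ, mco m (U.map (tht k) + Q * U) =
      (m : k) • (if m - E = 0 then X else 0) + mco m Q + mco (m - E) Q * X := by
    intro m
    rw [mco_add, mco_tht, hU, mco_add, mco_one, hT, mco_single_smul, hXCm, Matrix.mul_add,
      Matrix.mul_one, mco_add, Matrix.mul_smul, mco_single_smul, hXC, mco_mul_C]
    by_cases hm : m = 0
    · subst hm; simp
    · rw [if_neg hm, zero_add, add_assoc]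
  have hneg : ∀ (A : Matrix I I (LaurentSeries k)), PolF A → ∀ m : ℤ, m < 0 → mco m A = 0 := by
    intro A hA m hm
    ext i j
    exact hA i j m hm
  have hlow : ∀ m : ℤ, m < E → mco m Q' = mco m Q := by
    intro m hm
    have h1 := hL m
    rw [heq, hR, if_neg (by omega), smul_zero, zero_add, hneg Q hQ (m - E) (by omega),
      hneg Q' hQ'F (m - E) (by omega), Matrix.zero_mul, Matrix.mul_zero, add_zero, add_zero] at h1
    exact h1.symm
  have hQ0 : mco 0 Q' = mco 0 Q := hlow 0 (by exact_mod_cast hE)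
  refine ⟨U, V, Q', gauge_mk hUV hVU, hQ'F, hUF, hVF, ⟨E, ?_⟩, hQ0, ?_⟩
  · intro i j m hm
    have e : mco m U = 0 := by
      rw [hU, mco_add, mco_one, if_neg (by omega), hT, mco_single_smul, hXCm, if_neg (by omega),
        add_zero]
    exact congrFun (congrFun e i) j
  · intro m hm0 hm
    rcases lt_or_eq_of_le (show m ≤ (E : ℤ) by push_cast at hm; omega) with h' | h'
    · rw [hlow m h', h0 m hm0 h']
    · subst h'
      have h1 := hL E
      rw [heq, hR, sub_self, if_pos rfl, hQ0] at h1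
      have h2 : mco (E : ℤ) Q' = ((E : ℤ) : k) • X + mco (E : ℤ) Q + mco 0 Q * X - X * mco 0 Q := by
        rw [h1]; abel
      rw [h2]
      have h3 : ((E : ℤ) : k) • X + mco (E : ℤ) Q + mco 0 Q * X - X * mco 0 Q =
          ((E : k) • X + mco 0 Q * X - X * mco 0 Q) + mco (E : ℤ) Q := by
        push_cast
        abel
      rw [h3, hX]
      abel

end

theorem flat : FlatStmt := by
  intro k _ _ I _ _ Q E hQ h
  induction E with
  | zero =>
    refine ⟨1, 1, Q, gauge_refl tht_der Q, hQ, polF_one, polF_one, ⟨0, ?_⟩, rfl, ?_⟩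
    · intro i j m hm
      have e : mco m (1 : Matrix I I (LaurentSeries k)) = 0 := by
        rw [mco_one, if_neg (by omega)]
      exact congrFun (congrFun e i) j
    · intro m h1 h2
      exfalso
      push_cast at h2
      omega
  | succ E ih =>
    obtain ⟨G, Gi, Q', hg, hQ', hG, hGi, hLG, h0, hm⟩ := ih
    rcases Nat.eq_zero_or_pos E with rfl | hE
    · refine ⟨G, Gi, Q', hg, hQ', hG, hGi, hLG, h0, ?_⟩
      intro m h1 h2
      exfalso
      push_cast at h2
      omega
    · obtain ⟨G2, Gi2, Q'', hg2, hQ'', hG2, hGi2, hLG2, h02, hm2⟩ :=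
        flat_step Q' E hE hQ' (by rw [h0]; exact h) hm
      exact ⟨G * G2, Gi2 * Gi, Q'', gauge_trans tht_der hg hg2, hQ'', polF_mul hG hG2,
        polF_mul hGi2 hGi, lpol_mul hLG hLG2, h02.trans h0, hm2⟩

end Pool.Agent.Helper95_CM.H18
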