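import Pool.Agent.Helper95_CM.StF

/-!
# CM project: modules DUAL and GAU
-/

set_option autoImplicit false
set_option linter.unusedSectionVars false

noncomputable section

namespace Pool.Agent.Helper95_CM.H18

open Pool.Agent.Helper95_CM

section
variable {I J K R : Type} [Fintype I] [DecidableEq I] [Fintype J] [DecidableEq J] [CommRing R]

lemma cong_iff {a : R} {X Y : Matrix I J R} :
    Cong a X Y ↔ ∃ Z : Matrix I J R, X - Y = a • Z := by
  constructor
  · intro h
    choose z hz using h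
    exact ⟨Matrix.of z, by ext i j; simpa using hz i j⟩
  · rintro ⟨Z, hZ⟩ i j
    refine ⟨Z i j, ?_⟩
    have := congrFun (congrFun hZ i) j
    simpa using this

omit [Fintype I] [DecidableEq I] [DecidableEq J] in
lemma map_mul_der {d : R →+ R} (hd : IsDer d) (A : Matrix I J R) (B : Matrix J K R) :
    (A * B).map d = A.map d * B + A * B.map d := by
  ext i k
  simp only [Matrix.map_apply, Matrix.mul_apply, Matrix.add_apply, map_sum]
  rw [← Finset.sum_add_distrib]
  exact Finset.sum_congr rfl fun j _ => hd _ _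

end

theorem dual : DualStmt := by
  intro I _ _ R _ f d p N L Q P F h
  obtain ⟨h1, h2, h3, h4⟩ := h
  rw [cong_iff] at h1 h2 h3 h4
  obtain ⟨Z1, h1⟩ := h1
  obtain ⟨Z2, h2⟩ := h2
  obtain ⟨Z3, h3⟩ := h3
  obtain ⟨Z4, h4⟩ := h4
  refine ⟨?_, ?_, ?_, ?_⟩ <;> rw [cong_iff]
  · refine ⟨Z1.transpose, ?_⟩
    rw [← Matrix.transpose_smul, ← h1]
    simp
  · refine ⟨Z2.transpose, ?_⟩
    rw [← Matrix.transpose_smul, ← h2]
    simp
  · refine ⟨Z4.transpose, ?_⟩
    rw [← Matrix.transpose_smul, ← h4]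
    ext i j
    simp only [Matrix.add_apply, Matrix.sub_apply, Matrix.smul_apply, Matrix.map_apply,
      Matrix.mul_apply, Matrix.transpose_apply, Matrix.neg_apply, map_neg, smul_eq_mul,
      neg_mul, mul_neg, Finset.sum_neg_distrib]
    rw [Finset.sum_congr rfl fun x _ => mul_comm (f (Q x i)) (F j x),
      Finset.sum_congr rfl fun x _ => mul_comm (F x i) (Q j x)]
    ring
  · refine ⟨Z3.transpose, ?_⟩
    rw [← Matrix.transpose_smul, ← h3]
    ext i j
    simp only [Matrix.add_apply, Matrix.sub_apply, Matrix.smul_apply, Matrix.map_apply,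
      Matrix.mul_apply, Matrix.transpose_apply, Matrix.neg_apply, map_neg, smul_eq_mul,
      neg_mul, mul_neg, Finset.sum_neg_distrib]
    rw [Finset.sum_congr rfl fun x _ => mul_comm (Q x i) (P j x),
      Finset.sum_congr rfl fun x _ => mul_comm (P x i) (f (Q j x))]
    ring

theorem gau : GauStmt := by
  intro I _ _ R _ f d p N L Q Q' P F U Ui hd hc h hg
  obtain ⟨h1, h2, h3, h4⟩ := h
  obtain ⟨g1, g2, g3⟩ := hg
  have hdU : U.map d = U * Q' - Q * U := by rw [← g3]; abel
  have hd1 : (1 : Matrix I I R).map d = 0 := by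
    have h := map_mul_der hd (1 : Matrix I I R) (1 : Matrix I I R)
    simp only [Matrix.mul_one, Matrix.one_mul] at h
    simpa using h
  have hdUi : Ui.map d = Ui * Q - Q' * Ui := by
    have h := map_mul_der hd U Ui
    rw [g1, hd1, hdU] at h
    have h' := congrArg (fun X => Ui * X) h
    simp only [Matrix.mul_zero, Matrix.mul_add, Matrix.sub_mul, Matrix.mul_sub] at h'
    simp only [← Matrix.mul_assoc, g2, Matrix.one_mul] at h'
    have e : Ui * Q * U * Ui = Ui * Q := by rw [Matrix.mul_assoc, g1, Matrix.mul_one]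
    rw [e] at h'
    rw [← sub_eq_zero, h']
    abel
  have hf1 : U.map f * Ui.map f = 1 := by
    rw [← Matrix.map_mul, g1]; simp
  have hf2 : Ui.map f * U.map f = 1 := by
    rw [← Matrix.map_mul, g2]; simp
  have hdf : ∀ X : Matrix I I R, (X.map f).map d = (p : R) • (X.map d).map f := by
    intro X
    ext i j
    simp [hc]
  rw [cong_iff] at h1 h2 h3 h4
  obtain ⟨Z1, h1⟩ := h1
  obtain ⟨Z2, h2⟩ := h2
  obtain ⟨Z3, h3⟩ := h3
  obtain ⟨Z4, h4⟩ := h4
  refine ⟨?_, ?_, ?_, ?_⟩ <;> rw [cong_iff]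
  · refine ⟨Ui.map f * Z1 * U.map f, ?_⟩
    have : (p : R) ^ N • (Ui.map f * Z1 * U.map f) = Ui.map f * ((p : R) ^ N • Z1) * U.map f := by
      simp
    rw [this, ← h1]
    simp only [Matrix.mul_sub, Matrix.sub_mul, Matrix.mul_smul, Matrix.smul_mul, Matrix.mul_one,
      hf2]
    congr 1
    simp only [Matrix.mul_assoc]
    rw [← Matrix.mul_assoc U Ui, g1, Matrix.one_mul]
  · refine ⟨Ui * Z2 * U, ?_⟩
    have : (p : R) ^ N • (Ui * Z2 * U) = Ui * ((p : R) ^ N • Z2) * U := by
      simp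
    rw [this, ← h2]
    simp only [Matrix.mul_sub, Matrix.sub_mul, Matrix.mul_smul, Matrix.smul_mul, Matrix.mul_one,
      g2]
    congr 1
    simp only [Matrix.mul_assoc]
    rw [← Matrix.mul_assoc (U.map f) (Ui.map f), hf1, Matrix.one_mul]
  · refine ⟨Ui.map f * Z3 * U, ?_⟩
    have : (p : R) ^ N • (Ui.map f * Z3 * U) = Ui.map f * ((p : R) ^ N • Z3) * U := by
      simp
    rw [this, ← h3, map_mul_der hd, map_mul_der hd, hdf, hdUi, hdU]
    have e : (Ui * Q - Q' * Ui).map f = Ui.map f * Q.map f - Q'.map f * Ui.map f := by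
      rw [Matrix.map_sub _ (fun a b => map_sub f a b), Matrix.map_mul, Matrix.map_mul]
    rw [e]
    simp only [Matrix.mul_sub, Matrix.sub_mul, Matrix.mul_add, Matrix.add_mul, Matrix.mul_smul,
      Matrix.smul_mul, smul_sub, Matrix.mul_assoc]
    abel
  · refine ⟨Ui * Z4 * U.map f, ?_⟩
    have : (p : R) ^ N • (Ui * Z4 * U.map f) = Ui * ((p : R) ^ N • Z4) * U.map f := by
      simp
    rw [this, ← h4, map_mul_der hd, map_mul_der hd, hdf, hdUi, hdU]
    have e : (U * Q' - Q * U).map f = U.map f * Q'.map f - Q.map f * U.map f := by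
      rw [Matrix.map_sub _ (fun a b => map_sub f a b), Matrix.map_mul, Matrix.map_mul]
    rw [e]
    simp only [Matrix.mul_sub, Matrix.sub_mul, Matrix.mul_add, Matrix.add_mul, Matrix.mul_smul,
      Matrix.smul_mul, smul_sub, Matrix.mul_assoc]
    abel

end Pool.Agent.Helper95_CM.H18
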