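import Pool.Agent.Helper18_CM.Lau
import Pool.Agent.Helper95_CM.StK

/-!
# CM project: module HPOL
-/

set_option autoImplicit false
set_option linter.unusedSectionVars false

noncomputable section

namespace Pool.Agent.Helper95_CM.H18

open Pool.Agent.Helper95_CM

lemma hp_coeff_mul {R : Type} [CommRing R] {x y : LaurentSeries R} {a b : ℤ} (hx : OrdGe a x)
    (hy : OrdGe b y) : (x * y).coeff (a + b) = x.coeff a * y.coeff b := by
  rw [HahnSeries.coeff_mul, Finset.sum_eq_single (a, b)]
  · rintro ⟨u, v⟩ huv hne
    rw [Finset.mem_antidiagonal] at huv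
    obtain ⟨_, _, h3⟩ := huv
    simp only at h3 ⊢
    rcases lt_trichotomy u a with h | h | h
    · rw [hx u h, zero_mul]
    · subst h
      exact absurd (by rw [show v = b by omega]) hne
    · rw [hy v (by omega), mul_zero]
  · intro hn
    rw [Finset.mem_antidiagonal] at hn
    simp only [HahnSeries.mem_support, and_true, not_and_or, not_not] at hn
    rcases hn with h | h
    · rw [h, zero_mul]
    · rw [h, mul_zero]

section
variable {k : Type} [Field k] [CharZero k] {I J : Type} [Fintype I] [DecidableEq I] [Fintype J]
  [DecidableEq J]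

def lmulM (A : Matrix J J k) : Module.End k (Matrix J I k) where
  toFun c := A * c
  map_add' x y := Matrix.mul_add _ _ _
  map_smul' r x := by simp

def rmulM (B : Matrix I I k) : Module.End k (Matrix J I k) where
  toFun c := c * B
  map_add' x y := Matrix.add_mul _ _ _
  map_smul' r x := by simp

lemma lmulM_nil {A : Matrix J J k} (h : IsNilpotent A) :
    IsNilpotent (lmulM A : Module.End k (Matrix J I k)) := by
  obtain ⟨n, hn⟩ := h
  refine ⟨n, ?_⟩
  have key : ∀ m : ℕ, ∀ c : Matrix J I k, ((lmulM A : Module.End k (Matrix J I k)) ^ m) c =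
      A ^ m * c := by
    intro m
    induction m with
    | zero => intro c; simp
    | succ m ih =>
      intro c
      rw [pow_succ, Module.End.mul_apply, ih, pow_succ, Matrix.mul_assoc]
      rfl
  apply LinearMap.ext
  intro c
  rw [key, hn, Matrix.zero_mul]
  rfl

lemma rmulM_nil {B : Matrix I I k} (h : IsNilpotent B) :
    IsNilpotent (rmulM B : Module.End k (Matrix J I k)) := by
  obtain ⟨n, hn⟩ := h
  refine ⟨n, ?_⟩
  have key : ∀ m : ℕ, ∀ c : Matrix J I k, ((rmulM B : Module.End k (Matrix J I k)) ^ m) c =
      c * B ^ m := by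
    intro m
    induction m with
    | zero => intro c; simp
    | succ m ih =>
      intro c
      rw [pow_succ, Module.End.mul_apply, ih, pow_succ']
      show c * B * B ^ m = _
      rw [Matrix.mul_assoc]
  apply LinearMap.ext
  intro c
  rw [key, hn, Matrix.mul_zero]
  rfl

lemma no_eig {A : Matrix J J k} {B : Matrix I I k} (hA : IsNilpotent A) (hB : IsNilpotent B)
    {s : ℕ} (hs : 0 < s) {c : Matrix J I k} (h : -(s : k) • c = A * c + c * B) : c = 0 := by
  have h1 := lmulM_nil (I := I) hA
  have h2 := rmulM_nil (J := J) hB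
  have hc : Commute (lmulM A : Module.End k (Matrix J I k)) (rmulM B) := by
    apply LinearMap.ext
    intro c
    show A * (c * B) = A * c * B
    rw [Matrix.mul_assoc]
  have h3 := hc.isNilpotent_add h1 h2
  have h4 : IsUnit ((algebraMap k (Module.End k (Matrix J I k))) (s : k)) := by
    apply IsUnit.map
    exact IsUnit.mk0 _ (by exact_mod_cast hs.ne')
  have h5 := h3.isUnit_add_left_of_commute h4 (Algebra.commutes (s : k) _).symm
  rw [Module.End.isUnit_iff] at h5
  apply h5.1
  rw [map_zero]
  show algebraMap k (Module.End k (Matrix J I k)) (s : k) c + (A * c + c * B) = 0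
  rw [Module.algebraMap_end_apply, ← h, neg_smul]
  abel

lemma hp_exists_ordGe (x : LaurentSeries k) : ∃ s : ℕ, OrdGe (-(s : ℤ)) x := by
  by_cases hx : x = 0
  · subst hx; exact ⟨0, ordGe_zero⟩
  · refine ⟨(-x.order).toNat, fun i hi => ?_⟩
    apply HahnSeries.coeff_eq_zero_of_lt_order
    have := Int.self_le_toNat (-x.order)
    omega

lemma hpol_main {A : Matrix J J (LaurentSeries k)} {B : Matrix I I (LaurentSeries k)}
    {S E : Matrix J I (LaurentSeries k)} (hA : PolF A) (hB : PolF B) (hE : PolF E)
    (hA0 : IsNilpotent (mco 0 A)) (hB0 : IsNilpotent (mco 0 B))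
    (h : S.map (tht k) = A * S + S * B + E) : PolF S := by
  have hex : ∃ s : ℕ, ∀ j i, OrdGe (-(s : ℤ)) (S j i) := by
    choose g hg using fun (j : J) (i : I) => hp_exists_ordGe (S j i)
    refine ⟨Finset.univ.sup fun p : J × I => g p.1 p.2, fun j i => ordGe_mono ?_ (hg j i)⟩
    have := Finset.le_sup (f := fun p : J × I => g p.1 p.2) (Finset.mem_univ (j, i))
    simp only at this
    omega
  obtain ⟨s, hs⟩ := hex
  induction s with
  | zero =>
    intro j i
    have := hs j i
    rwa [Nat.cast_zero, neg_zero] at this
  | succ s ih =>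
    apply ih
    have hlead : mco (-((s + 1 : ℕ) : ℤ)) S = 0 := by
      apply no_eig hA0 hB0 (Nat.succ_pos s)
      ext j i
      have h1 := congrFun (congrFun h j) i
      have h2 := congrArg (fun z => HahnSeries.coeff z (-((s + 1 : ℕ) : ℤ))) h1
      simp only [Matrix.map_apply, tht_coeff, Matrix.add_apply, HahnSeries.coeff_add,
        Matrix.mul_apply, lcoeff_sum] at h2
      rw [hE j i _ (by push_cast; omega), add_zero] at h2
      rw [Matrix.smul_apply, Matrix.add_apply, Matrix.mul_apply, Matrix.mul_apply]
      have e1 : ∀ x, (A j x * S x i).coeff (-((s + 1 : ℕ) : ℤ)) =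
          mco 0 A j x * mco (-((s + 1 : ℕ) : ℤ)) S x i := by
        intro x
        have := hp_coeff_mul (hA j x) (hs x i)
        rw [zero_add] at this
        exact this
      have e2 : ∀ x, (S j x * B x i).coeff (-((s + 1 : ℕ) : ℤ)) =
          mco (-((s + 1 : ℕ) : ℤ)) S j x * mco 0 B x i := by
        intro x
        have := hp_coeff_mul (hs j x) (hB x i)
        rw [add_zero] at this
        exact this
      simp only [e1, e2] at h2
      rw [← h2, smul_eq_mul]
      push_cast
      rfl
    intro j i m hm
    rcases lt_or_ge m (-((s + 1 : ℕ) : ℤ)) with h' | h'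
    · exact hs j i m h'
    · have e : m = -((s + 1 : ℕ) : ℤ) := by push_cast at h' ⊢; omega
      rw [e]
      exact congrFun (congrFun hlead j) i

end

theorem hpol : HpolStmt := by
  intro k _ _ I _ _ Q hQ h0
  have hnil : IsNilpotent (mco 0 Q) := ⟨_, h0⟩
  refine ⟨?_, ?_, ?_⟩
  · intro x hx
    have := hpol_main (k := k) (I := Unit) (J := I) (A := -Q) (B := 0)
      (S := Matrix.of fun i _ => x i) (E := Matrix.of fun i _ => nbv (tht k) Q x i)
      (fun i j => ordGe_neg (hQ i j)) (fun i j => ordGe_zero) (fun i _ => hx i)
      (by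
        have e : mco 0 (-Q) = - mco 0 Q := by ext i j; simp [mco]
        rw [e]
        exact hnil.neg)
      (by
        have e : mco 0 (0 : Matrix Unit Unit (LaurentSeries k)) = 0 := by ext i j; simp [mco]
        rw [e]
        exact IsNilpotent.zero)
      (by
        rw [Matrix.mul_zero, add_zero]
        apply Matrix.ext
        intro i u
        rw [Matrix.map_apply, Matrix.add_apply, Matrix.of_apply, Matrix.of_apply, Matrix.neg_mul,
          Matrix.neg_apply, Matrix.mul_apply]
        show tht k (x i) = -(∑ j, Q i j * x j) + (tht k (x i) + (Q.mulVec x) i)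
        have : (Q.mulVec x) i = ∑ j, Q i j * x j := rfl
        rw [this]
        abel)
    intro i
    exact this i ()
  · intro G hG
    have := hpol_main (k := k) (I := I) (J := Unit) (A := 0) (B := Q)
      (S := Matrix.of fun _ j => G j) (E := Matrix.of fun _ j => tht k (G j) - ∑ i, G i * Q i j)
      (fun i j => ordGe_zero) hQ (fun _ j => hG j)
      (by
        have e : mco 0 (0 : Matrix Unit Unit (LaurentSeries k)) = 0 := by ext i j; simp [mco]
        rw [e]
        exact IsNilpotent.zero)
      hnil
      (by
        rw [Matrix.zero_mul, zero_add]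
        apply Matrix.ext
        intro u j
        rw [Matrix.map_apply, Matrix.add_apply, Matrix.of_apply, Matrix.of_apply,
          Matrix.mul_apply]
        simp only [Matrix.of_apply]
        abel)
    intro j
    exact this () j
  · intro J _ _ Q1 S hQ1 h1 hS
    refine hpol_main (k := k) (A := Q1.transpose) (B := Q) (S := S) (E := 0)
      (fun i j => hQ1 j i) hQ (fun i j => ordGe_zero) ?_ hnil ?_
    · refine ⟨Fintype.card J, ?_⟩
      have e : mco 0 Q1.transpose = (mco 0 Q1).transpose := rfl
      rw [e, ← Matrix.transpose_pow, h1, Matrix.transpose_zero]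
    · rw [add_zero]
      ext j i : 2
      rw [Matrix.map_apply, hS, Matrix.add_apply, Matrix.mul_apply, Matrix.mul_apply]
      rfl

end Pool.Agent.Helper95_CM.H18
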