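import Pool.Agent.Helper95_CM.StF

/-!
# CM project: module LATSH
-/

set_option autoImplicit false
set_option linter.unusedSectionVars false

noncomputable section

namespace Pool.Agent.Helper95_CM.H18

open Pool.Agent.Helper95_CM

section
variable {𝒪 : Type} [CommRing 𝒪] {I : Type} [Fintype I] [DecidableEq I]

lemma C_smul_eq (c : 𝒪) (x : I → LaurentSeries 𝒪) :
    (HahnSeries.C c : LaurentSeries 𝒪) • x = c • x := by
  funext i
  rw [Pi.smul_apply, Pi.smul_apply, smul_eq_mul, HahnSeries.C_mul_eq_smul]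

lemma tht_smul (c : 𝒪) (x : LaurentSeries 𝒪) : tht 𝒪 (c • x) = c • tht 𝒪 x := by
  ext m
  simp only [tht_coeff, HahnSeries.coeff_smul, smul_eq_mul]
  ring

/-- `∇` as an `𝒪`-linear map -/
def nbL (Q : Matrix I I (LaurentSeries 𝒪)) : Module.End 𝒪 (I → LaurentSeries 𝒪) where
  toFun x := nbv (tht 𝒪) Q x
  map_add' x y := map_add _ x y
  map_smul' c x := by
    funext i
    show tht 𝒪 ((c • x) i) + (Q.mulVec (c • x)) i = c • (tht 𝒪 (x i) + (Q.mulVec x) i)
    rw [Pi.smul_apply, tht_smul, smul_add, ← C_smul_eq, Matrix.mulVec_smul, Pi.smul_apply,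
      smul_eq_mul, HahnSeries.C_mul_eq_smul]

lemma nbL_apply (Q : Matrix I I (LaurentSeries 𝒪)) (x : I → LaurentSeries 𝒪) :
    nbL Q x = nbv (tht 𝒪) Q x := rfl

open Polynomial in
lemma dsc_eq (Q : Matrix I I (LaurentSeries 𝒪)) (c : 𝒪) (n : ℕ) (x : I → LaurentSeries 𝒪) :
    dsc (tht 𝒪) Q (HahnSeries.C c) n x =
      aeval (nbL Q) (∏ j ∈ Finset.range n, (X + C (c - (j : 𝒪)) : 𝒪[X])) x := by
  induction n with
  | zero => simp [dsc]
  | succ n ih =>
    rw [Finset.prod_range_succ, mul_comm, map_mul, Module.End.mul_apply, ← ih, dsc]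
    rw [map_add, aeval_X, aeval_C, LinearMap.add_apply, nbL_apply]
    congr 1
    have e : (HahnSeries.C c - ((n : ℕ) : LaurentSeries 𝒪)) =
        (HahnSeries.C (c - (n : 𝒪)) : LaurentSeries 𝒪) := by
      rw [map_sub, map_natCast]
    rw [e, C_smul_eq]
    rfl

open Polynomial in
lemma foldr_eq (Q : Matrix I I (LaurentSeries 𝒪)) (al : List 𝒪) (A n : ℕ)
    (x : I → LaurentSeries 𝒪) :
    al.foldr (fun a y => dsc (tht 𝒪) Q (HahnSeries.C ((A : 𝒪) - a)) n y) x =
      aeval (nbL Q) ((al.map fun a => ∏ j ∈ Finset.range n,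
        (X + C ((A : 𝒪) - a - (j : 𝒪)) : 𝒪[X])).prod) x := by
  induction al with
  | nil => simp
  | cons a l ih =>
    rw [List.foldr_cons, ih, dsc_eq, List.map_cons, List.prod_cons, map_mul,
      Module.End.mul_apply]

lemma ordGe_mul {x y : LaurentSeries 𝒪} {m : ℤ} (hx : OrdGe 0 x) (hy : OrdGe m y) :
    OrdGe m (x * y) ∧ (x * y).coeff m = x.coeff 0 * y.coeff m := by
  have key : ∀ i : ℤ, i ≤ m → (x * y).coeff i =
      if i = m then x.coeff 0 * y.coeff m else 0 := by
    intro i hi
    rw [HahnSeries.coeff_mul]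
    split_ifs with h
    · subst h
      rw [Finset.sum_eq_single (0, i)]
      · rintro ⟨a, b⟩ hab hne
        rw [Finset.mem_antidiagonal] at hab
        obtain ⟨h1, h2, h3⟩ := hab
        simp only at h1 h2 h3 ⊢
        rcases lt_trichotomy a 0 with h | h | h
        · rw [hx a h, zero_mul]
        · subst h
          rw [zero_add] at h3
          exact absurd (by rw [h3]) hne
        · rw [hy b (by omega), mul_zero]
      · intro hn
        rw [Finset.mem_antidiagonal] at hn
        simp only [zero_add, HahnSeries.mem_support, and_true, not_and_or, not_not] at hn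
        rcases hn with h | h
        · rw [h, zero_mul]
        · rw [h, mul_zero]
    · apply Finset.sum_eq_zero
      rintro ⟨a, b⟩ hab
      rw [Finset.mem_antidiagonal] at hab
      obtain ⟨h1, h2, h3⟩ := hab
      simp only at h1 h2 h3 ⊢
      rcases lt_or_ge a 0 with h' | h'
      · rw [hx a h', zero_mul]
      · rw [hy b (by omega), mul_zero]
  constructor
  · intro i hi
    rw [key i hi.le, if_neg hi.ne]
  · rw [key m le_rfl, if_pos rfl]

/-- vector of coefficients -/
def cov (m : ℤ) (x : I → LaurentSeries 𝒪) : I → 𝒪 := fun i => (x i).coeff m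

lemma coeff_fsum {ι : Type} (s : Finset ι) (f : ι → LaurentSeries 𝒪) (m : ℤ) :
    (∑ i ∈ s, f i).coeff m = ∑ i ∈ s, (f i).coeff m := by
  classical
  induction s using Finset.induction_on with
  | empty => simp
  | insert a s ha ih => rw [Finset.sum_insert ha, Finset.sum_insert ha, HahnSeries.coeff_add, ih]

lemma nbL_ord (Q : Matrix I I (LaurentSeries 𝒪)) (hQ : PolF Q) {m : ℤ}
    {x : I → LaurentSeries 𝒪} (hx : ∀ k, OrdGe m (x k)) :
    (∀ k, OrdGe m (nbL Q x k)) ∧
      cov m (nbL Q x) = (m : 𝒪) • cov m x + (mco 0 Q).mulVec (cov m x) := by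
  constructor
  · intro k i hi
    show (tht 𝒪 (x k) + (Q.mulVec x) k).coeff i = 0
    rw [HahnSeries.coeff_add, tht_coeff, hx k i hi, mul_zero, zero_add]
    show (∑ j, Q k j * x j).coeff i = 0
    rw [coeff_fsum]
    exact Finset.sum_eq_zero fun j _ => (ordGe_mul (hQ k j) (hx j)).1 i hi
  · funext k
    show (tht 𝒪 (x k) + (Q.mulVec x) k).coeff m = _
    rw [HahnSeries.coeff_add, tht_coeff]
    show _ + (∑ j, Q k j * x j).coeff m = _
    rw [coeff_fsum, Finset.sum_congr rfl fun j _ => (ordGe_mul (hQ k j) (hx j)).2]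
    rfl

open Polynomial in
lemma factor_ord (Q : Matrix I I (LaurentSeries 𝒪)) (hQ : PolF Q) (m : ℤ) (al : List 𝒪)
    {x : I → LaurentSeries 𝒪} (hx : ∀ k, OrdGe m (x k)) :
    (∀ k, OrdGe m (aeval (nbL Q) ((al.map fun a => (X + C (-(m : 𝒪) - a) : 𝒪[X])).prod) x k)) ∧
      cov m (aeval (nbL Q) ((al.map fun a => (X + C (-(m : 𝒪) - a) : 𝒪[X])).prod) x) =
        ((al.map fun a => mco 0 Q - a • (1 : Matrix I I 𝒪)).prod).mulVec (cov m x) := by
  induction al with
  | nil => simpa using hx
  | cons a l ih =>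
    rw [List.map_cons, List.prod_cons, map_mul, Module.End.mul_apply, List.map_cons,
      List.prod_cons]
    set y := aeval (nbL Q) ((l.map fun a => (X + C (-(m : 𝒪) - a) : 𝒪[X])).prod) x with hy
    obtain ⟨h1, h2⟩ := ih
    obtain ⟨h3, h4⟩ := nbL_ord Q hQ h1
    have e : aeval (nbL Q) (X + C (-(m : 𝒪) - a) : 𝒪[X]) y = nbL Q y + (-(m : 𝒪) - a) • y := by
      rw [map_add, aeval_X, aeval_C, LinearMap.add_apply]
      rfl
    rw [e]
    constructor
    · intro k i hi
      show (nbL Q y k + (-(m : 𝒪) - a) • y k).coeff i = 0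
      rw [HahnSeries.coeff_add, h3 k i hi, HahnSeries.coeff_smul, h1 k i hi, smul_zero, add_zero]
    · have e2 : cov m (nbL Q y + (-(m : 𝒪) - a) • y) = cov m (nbL Q y) + (-(m : 𝒪) - a) • cov m y := by
        funext k
        rfl
      rw [e2, h4, ← Matrix.mulVec_mulVec, ← h2, Matrix.sub_mulVec, Matrix.smul_mulVec,
        Matrix.one_mulVec, sub_smul, neg_smul]
      abel

end

lemma prod_swap {α ι S : Type} [CommRing S] (l : List α) (s : Finset ι) (g : α → ι → S) :
    (l.map fun a => ∏ j ∈ s, g a j).prod = ∏ j ∈ s, (l.map fun a => g a j).prod := by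
  induction l with
  | nil => simp
  | cons a l ih =>
    simp only [List.map_cons, List.prod_cons]
    rw [ih, Finset.prod_mul_distrib]

theorem latsh : LatshStmt := by
  intro 𝒪 _ I _ _ Q al hQ hprod A B x hx k
  rw [foldr_eq]
  have hswap : (al.map fun a => ∏ j ∈ Finset.range (A + B),
      (Polynomial.X + Polynomial.C ((A : 𝒪) - a - (j : 𝒪)) : Polynomial 𝒪)).prod =
      ∏ j ∈ Finset.range (A + B), (al.map fun a =>
        (Polynomial.X + Polynomial.C (-(((j : ℤ) - (A : ℤ) : ℤ) : 𝒪) - a) : Polynomial 𝒪)).prod := by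
    rw [prod_swap]
    refine Finset.prod_congr rfl fun j _ => ?_
    congr 1
    refine List.map_congr_left fun a _ => ?_
    congr 2
    push_cast
    ring
  rw [hswap]
  have key : ∀ n : ℕ, ∀ k, OrdGe ((n : ℤ) - (A : ℤ)) (Polynomial.aeval (nbL Q)
      (∏ j ∈ Finset.range n, (al.map fun a =>
        (Polynomial.X + Polynomial.C (-(((j : ℤ) - (A : ℤ) : ℤ) : 𝒪) - a) : Polynomial 𝒪)).prod)
        x k) := by
    intro n
    induction n with
    | zero =>
      intro k
      simpa using hx k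
    | succ n ih =>
      intro k
      rw [Finset.prod_range_succ, mul_comm, map_mul, Module.End.mul_apply]
      obtain ⟨h1, h2⟩ := factor_ord Q hQ _ al ih
      rw [hprod, Matrix.zero_mulVec] at h2
      intro i hi
      rcases lt_or_eq_of_le (show i ≤ (n : ℤ) - A by push_cast at hi; omega) with h | h
      · exact h1 k i h
      · rw [h]
        exact congrFun h2 k
  have := key (A + B) k
  simpa using this

end Pool.Agent.Helper95_CM.H18
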