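import Pool.Agent.Helper95_CM.StF

/-!
# CM project: lemmas on matrices over Laurent series
-/

set_option autoImplicit false
set_option linter.unusedSectionVars false

noncomputable section

namespace Pool.Agent.Helper95_CM.H18

open Pool.Agent.Helper95_CM

section
variable {𝒪 : Type} [CommRing 𝒪] {I J K : Type} [Fintype I] [DecidableEq I] [Fintype J]
  [DecidableEq J]

lemma tht_der : IsDer (tht 𝒪) := by
  intro x y
  ext m
  have hx : (tht 𝒪 x).support ⊆ x.support := by
    intro a ha h0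
    exact ha (by rw [tht_coeff, h0, mul_zero])
  have hy : (tht 𝒪 y).support ⊆ y.support := by
    intro a ha h0
    exact ha (by rw [tht_coeff, h0, mul_zero])
  rw [HahnSeries.coeff_add, tht_coeff, HahnSeries.coeff_mul,
    HahnSeries.coeff_mul_left' x.isPWO_support hx, HahnSeries.coeff_mul_right' y.isPWO_support hy,
    Finset.mul_sum, ← Finset.sum_add_distrib]
  refine Finset.sum_congr rfl fun ij hij => ?_
  rw [Finset.mem_antidiagonal] at hij
  rw [tht_coeff, tht_coeff, ← hij.2.2]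
  push_cast
  ring

lemma lcoeff_sum {ι : Type} (s : Finset ι) (f : ι → LaurentSeries 𝒪) (m : ℤ) :
    (∑ i ∈ s, f i).coeff m = ∑ i ∈ s, (f i).coeff m := by
  classical
  induction s using Finset.induction_on with
  | empty => simp
  | insert a s ha ih => rw [Finset.sum_insert ha, Finset.sum_insert ha, HahnSeries.coeff_add, ih]

lemma ordGe_add {x y : LaurentSeries 𝒪} {m : ℤ} (hx : OrdGe m x) (hy : OrdGe m y) :
    OrdGe m (x + y) := by
  intro i hi
  rw [HahnSeries.coeff_add, hx i hi, hy i hi, add_zero]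

lemma ordGe_sub {x y : LaurentSeries 𝒪} {m : ℤ} (hx : OrdGe m x) (hy : OrdGe m y) :
    OrdGe m (x - y) := by
  intro i hi
  rw [HahnSeries.coeff_sub, hx i hi, hy i hi, sub_zero]

lemma ordGe_neg {x : LaurentSeries 𝒪} {m : ℤ} (hx : OrdGe m x) :
    OrdGe m (-x) := by
  intro i hi
  rw [HahnSeries.coeff_neg, hx i hi, neg_zero]

lemma ordGe_zero {m : ℤ} : OrdGe m (0 : LaurentSeries 𝒪) := by
  intro i _
  rfl

lemma ordGe_sum {ι : Type} (s : Finset ι) (f : ι → LaurentSeries 𝒪) (m : ℤ)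
    (h : ∀ i ∈ s, OrdGe m (f i)) : OrdGe m (∑ i ∈ s, f i) := by
  intro i hi
  rw [lcoeff_sum]
  exact Finset.sum_eq_zero fun j hj => h j hj i hi

lemma ordGe_mul_gen {x y : LaurentSeries 𝒪} {a b : ℤ} (hx : OrdGe a x) (hy : OrdGe b y) :
    OrdGe (a + b) (x * y) := by
  intro i hi
  rw [HahnSeries.coeff_mul]
  apply Finset.sum_eq_zero
  rintro ⟨u, v⟩ huv
  rw [Finset.mem_antidiagonal] at huv
  obtain ⟨_, _, h3⟩ := huv
  simp only at h3 ⊢
  rcases lt_or_ge u a with h | h
  · rw [hx u h, zero_mul]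
  · rw [hy v (by omega), mul_zero]

lemma ordGe_mul0 {x y : LaurentSeries 𝒪} (hx : OrdGe 0 x) (hy : OrdGe 0 y) :
    OrdGe 0 (x * y) := by simpa using ordGe_mul_gen hx hy

lemma ordGe_mono {x : LaurentSeries 𝒪} {a b : ℤ} (hab : b ≤ a) (hx : OrdGe a x) :
    OrdGe b x := fun i hi => hx i (by omega)

lemma ordGe_tht {x : LaurentSeries 𝒪} {a : ℤ} (hx : OrdGe a x) : OrdGe a (tht 𝒪 x) := by
  intro i hi
  rw [tht_coeff, hx i hi, mul_zero]

lemma ordGe_C (c : 𝒪) : OrdGe 0 (HahnSeries.C c : LaurentSeries 𝒪) := by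
  intro i hi
  rw [HahnSeries.C_apply, HahnSeries.coeff_single_of_ne hi.ne]

lemma ordGe_one : OrdGe 0 (1 : LaurentSeries 𝒪) := by
  intro i hi
  rw [HahnSeries.coeff_one, if_neg hi.ne]

lemma ordGe_natCast (n : ℕ) : OrdGe 0 (n : LaurentSeries 𝒪) := by
  rw [← map_natCast (HahnSeries.C : 𝒪 →+* LaurentSeries 𝒪)]
  exact ordGe_C _

lemma ordGe_single (m : ℤ) (c : 𝒪) : OrdGe m (HahnSeries.single m c : LaurentSeries 𝒪) := by
  intro i hi
  rw [HahnSeries.coeff_single_of_ne hi.ne]

/-! ### coefficients of matrices -/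

omit [DecidableEq J] in
lemma polF_mul {A : Matrix I J (LaurentSeries 𝒪)} {B : Matrix J K (LaurentSeries 𝒪)}
    (hA : PolF A) (hB : PolF B) : PolF (A * B) := by
  intro i k
  rw [Matrix.mul_apply]
  exact ordGe_sum _ _ _ fun j _ => ordGe_mul0 (hA i j) (hB j k)

lemma polF_add {A B : Matrix I J (LaurentSeries 𝒪)} (hA : PolF A) (hB : PolF B) :
    PolF (A + B) := fun i j => ordGe_add (hA i j) (hB i j)

lemma polF_sub {A B : Matrix I J (LaurentSeries 𝒪)} (hA : PolF A) (hB : PolF B) :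
    PolF (A - B) := fun i j => ordGe_sub (hA i j) (hB i j)

lemma polF_tht {A : Matrix I J (LaurentSeries 𝒪)} (hA : PolF A) :
    PolF (A.map (tht 𝒪)) := fun i j => ordGe_tht (hA i j)

lemma polF_one : PolF (1 : Matrix I I (LaurentSeries 𝒪)) := by
  intro i j
  by_cases h : i = j
  · subst h; rw [Matrix.one_apply_eq]; exact ordGe_one
  · rw [Matrix.one_apply_ne h]; exact ordGe_zero

lemma polF_C (A : Matrix I J 𝒪) :
    PolF (A.map (HahnSeries.C : 𝒪 →+* LaurentSeries 𝒪)) := fun _ _ => ordGe_C _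

lemma mco_add (m : ℤ) (A B : Matrix I J (LaurentSeries 𝒪)) :
    mco m (A + B) = mco m A + mco m B := by
  ext i j; simp [mco]

lemma mco_sub (m : ℤ) (A B : Matrix I J (LaurentSeries 𝒪)) :
    mco m (A - B) = mco m A - mco m B := by
  ext i j; simp [mco]

lemma mco_tht (m : ℤ) (A : Matrix I J (LaurentSeries 𝒪)) :
    mco m (A.map (tht 𝒪)) = (m : 𝒪) • mco m A := by
  ext i j; simp [mco]

lemma mco_one (m : ℤ) : mco m (1 : Matrix I I (LaurentSeries 𝒪)) = if m = 0 then 1 else 0 := by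
  ext i j
  rw [mco, Matrix.map_apply]
  split_ifs with h
  · by_cases hij : i = j
    · subst hij; rw [Matrix.one_apply_eq, Matrix.one_apply_eq, HahnSeries.coeff_one, if_pos h]
    · rw [Matrix.one_apply_ne hij, Matrix.one_apply_ne hij]; rfl
  · by_cases hij : i = j
    · subst hij; rw [Matrix.one_apply_eq, HahnSeries.coeff_one, if_neg h]; rfl
    · rw [Matrix.one_apply_ne hij]; rfl

omit [DecidableEq J] in
lemma mco_C_mul (m : ℤ) (A : Matrix I J 𝒪) (B : Matrix J K (LaurentSeries 𝒪)) :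
    mco m (A.map (HahnSeries.C : 𝒪 →+* LaurentSeries 𝒪) * B) = A * mco m B := by
  ext i k
  rw [mco, Matrix.map_apply, Matrix.mul_apply, lcoeff_sum, Matrix.mul_apply]
  refine Finset.sum_congr rfl fun j _ => ?_
  rw [Matrix.map_apply, HahnSeries.C_mul_eq_smul, HahnSeries.coeff_smul, smul_eq_mul]
  rfl

omit [DecidableEq J] in
lemma mco_mul_C (m : ℤ) (A : Matrix I J (LaurentSeries 𝒪)) (B : Matrix J K 𝒪) :
    mco m (A * B.map (HahnSeries.C : 𝒪 →+* LaurentSeries 𝒪)) = mco m A * B := by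
  ext i k
  rw [mco, Matrix.map_apply, Matrix.mul_apply, lcoeff_sum, Matrix.mul_apply]
  refine Finset.sum_congr rfl fun j _ => ?_
  rw [Matrix.map_apply, mul_comm, HahnSeries.C_mul_eq_smul, HahnSeries.coeff_smul, smul_eq_mul,
    mul_comm]
  rfl

lemma mco_single_smul (m e : ℤ) (A : Matrix I J (LaurentSeries 𝒪)) :
    mco m ((HahnSeries.single e (1 : 𝒪) : LaurentSeries 𝒪) • A) = mco (m - e) A := by
  ext i j
  rw [mco, Matrix.map_apply, Matrix.smul_apply, smul_eq_mul, HahnSeries.coeff_single_mul, one_mul]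
  rfl

omit [DecidableEq J] in
/-- the constant coefficient is multiplicative on pole-free matrices -/
lemma mco_zero_mul {A : Matrix I J (LaurentSeries 𝒪)} {B : Matrix J K (LaurentSeries 𝒪)}
    (hA : PolF A) (hB : PolF B) : mco 0 (A * B) = mco 0 A * mco 0 B := by
  ext i k
  rw [mco, Matrix.map_apply, Matrix.mul_apply, lcoeff_sum, Matrix.mul_apply]
  refine Finset.sum_congr rfl fun j _ => ?_
  show (A i j * B j k).coeff 0 = (A i j).coeff 0 * (B j k).coeff 0
  rw [HahnSeries.coeff_mul, Finset.sum_eq_single ((0 : ℤ), (0 : ℤ))]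
  · rintro ⟨a, b⟩ hab hne
    rw [Finset.mem_antidiagonal] at hab
    obtain ⟨_, _, h3⟩ := hab
    simp only at h3 ⊢
    rcases lt_trichotomy a 0 with h | h | h
    · rw [hA i j a h, zero_mul]
    · subst h
      rw [zero_add] at h3
      exact absurd (by rw [h3]) hne
    · rw [hB j k b (by omega), mul_zero]
  · intro hn
    rw [Finset.mem_antidiagonal] at hn
    simp only [add_zero, HahnSeries.mem_support, and_true, not_and_or, not_not] at hn
    rcases hn with h | h
    · rw [h, zero_mul]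
    · rw [h, mul_zero]

omit [DecidableEq J] in
lemma lpol_mul [Fintype K] {A : Matrix I J (LaurentSeries 𝒪)} {B : Matrix J K (LaurentSeries 𝒪)}
    (hA : LPol A) (hB : LPol B) : LPol (A * B) := by
  obtain ⟨a, ha⟩ := hA
  obtain ⟨b, hb⟩ := hB
  refine ⟨a + b, fun i k m hm => ?_⟩
  rw [Matrix.mul_apply, lcoeff_sum]
  refine Finset.sum_eq_zero fun j _ => ?_
  rw [HahnSeries.coeff_mul]
  apply Finset.sum_eq_zero
  rintro ⟨u, v⟩ huv
  rw [Finset.mem_antidiagonal] at huv
  obtain ⟨_, _, h3⟩ := huv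
  simp only at h3 ⊢
  rcases lt_or_ge a u with h | h
  · rw [ha i j u h, zero_mul]
  · rw [hb j k v (by omega), mul_zero]

/-- inverse of a pole-free matrix with invertible constant coefficient -/
lemma exists_polF_inv {U : Matrix I I (LaurentSeries 𝒪)} (hU : PolF U)
    (h0 : IsUnit (mco 0 U).det) :
    ∃ V : Matrix I I (LaurentSeries 𝒪), PolF V ∧ U * V = 1 ∧ V * U = 1 := by
  let U' : Matrix I I (PowerSeries 𝒪) := Matrix.of fun i j => PowerSeries.mk fun n =>
    (U i j).coeff (n : ℤ)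
  let f : PowerSeries 𝒪 →+* LaurentSeries 𝒪 := HahnSeries.ofPowerSeries ℤ 𝒪
  have hf : ∀ (x : PowerSeries 𝒪) (n : ℕ), (f x).coeff (n : ℤ) = PowerSeries.coeff n x :=
    fun x n => HahnSeries.ofPowerSeries_apply_coeff x n
  have hf' : ∀ (x : PowerSeries 𝒪), OrdGe 0 (f x) := by
    intro x i hi
    show (HahnSeries.ofPowerSeries ℤ 𝒪 x).coeff i = 0
    rw [HahnSeries.ofPowerSeries_apply]
    apply HahnSeries.embDomain_of_notMem_range
    rintro ⟨n, hn⟩
    have : (n : ℤ) = i := hn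
    omega
  have hUU : U'.map f = U := by
    ext i j m
    rw [Matrix.map_apply]
    rcases lt_or_ge m 0 with h | h
    · rw [hf' _ m h, hU i j m h]
    · obtain ⟨n, rfl⟩ := Int.eq_ofNat_of_zero_le h
      rw [hf]
      simp [U']
  have hc : U'.map (PowerSeries.constantCoeff (R := 𝒪)) = mco 0 U := by
    ext i j
    rw [Matrix.map_apply, ← PowerSeries.coeff_zero_eq_constantCoeff_apply]
    simp [U', mco]
  have hd : IsUnit U'.det := by
    rw [PowerSeries.isUnit_iff_constantCoeff, RingHom.map_det]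
    have : (PowerSeries.constantCoeff (R := 𝒪)).mapMatrix U' = mco 0 U := hc
    rw [this]
    exact h0
  refine ⟨(U'⁻¹).map f, fun i j => hf' _, ?_, ?_⟩
  · rw [← hUU, ← Matrix.map_mul, Matrix.mul_nonsing_inv _ hd]
    exact Matrix.map_one _ (map_zero f) (map_one f)
  · rw [← hUU, ← Matrix.map_mul, Matrix.nonsing_inv_mul _ hd]
    exact Matrix.map_one _ (map_zero f) (map_one f)

end

section
variable {R I : Type} [CommRing R] [Fintype I] [DecidableEq I]

lemma map_mul_der' {d : R →+ R} (hd : IsDer d) (A B : Matrix I I R) :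
    (A * B).map d = A.map d * B + A * B.map d := by
  ext i k
  simp only [Matrix.map_apply, Matrix.mul_apply, Matrix.add_apply, map_sum]
  rw [← Finset.sum_add_distrib]
  exact Finset.sum_congr rfl fun j _ => hd _ _

lemma map_one_der {d : R →+ R} (hd : IsDer d) : (1 : Matrix I I R).map d = 0 := by
  have h := map_mul_der' hd (1 : Matrix I I R) (1 : Matrix I I R)
  simp only [Matrix.mul_one, Matrix.one_mul] at h
  simpa using h

lemma gauge_refl {d : R →+ R} (hd : IsDer d) (Q : Matrix I I R) : Gauge d 1 1 Q Q :=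
  ⟨by simp, by simp, by rw [map_one_der hd]; simp⟩

lemma gauge_trans {d : R →+ R} (hd : IsDer d) {U1 V1 U2 V2 Q Q' Q'' : Matrix I I R}
    (h1 : Gauge d U1 V1 Q Q') (h2 : Gauge d U2 V2 Q' Q'') :
    Gauge d (U1 * U2) (V2 * V1) Q Q'' := by
  refine ⟨?_, ?_, ?_⟩
  · rw [Matrix.mul_assoc, ← Matrix.mul_assoc U2, h2.inv, Matrix.one_mul, h1.inv]
  · rw [Matrix.mul_assoc, ← Matrix.mul_assoc V1, h1.inv', Matrix.one_mul, h2.inv']
  · rw [map_mul_der' hd, ← Matrix.mul_assoc Q, add_right_comm, ← Matrix.add_mul, h1.eq,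
      Matrix.mul_assoc, Matrix.mul_assoc, ← Matrix.mul_add, ← h2.eq, add_comm (U2.map d)]

/-- the gauge transform by an invertible matrix -/
lemma gauge_mk {d : R →+ R} {U V Q : Matrix I I R} (h1 : U * V = 1) (h2 : V * U = 1) :
    Gauge d U V Q (V * (U.map d + Q * U)) :=
  ⟨h1, h2, by rw [← Matrix.mul_assoc, h1, Matrix.one_mul]⟩

end

end Pool.Agent.Helper95_CM.H18
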