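import Pool.Agent.Helper18_CM.Lau
import Pool.Agent.Helper95_CM.StK

/-!
# CM project: module REGP
-/

set_option autoImplicit false
set_option linter.unusedSectionVars false

noncomputable section

namespace Pool.Agent.Helper95_CM.H18

open Pool.Agent.Helper95_CM Polynomial

section
variable {K R : Type} [CommRing K] [CommRing R]

/-- apply an additive map to all coefficients of a polynomial -/
def cmap (h : K →+ R) : K[X] →+ R[X] where
  toFun p := ∑ j ∈ p.support, monomial j (h (p.coeff j))
  map_zero' := by simp
  map_add' p q := by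
    ext n
    simp only [finsetSum_coeff, coeff_monomial, coeff_add]
    simp only [Finset.sum_ite_eq', mem_support_iff, ne_eq, coeff_add]
    by_cases h1 : p.coeff n = 0 <;> by_cases h2 : q.coeff n = 0 <;>
      by_cases h3 : p.coeff n + q.coeff n = 0 <;> simp_all
    · rw [← map_add, h3, map_zero]

lemma cmap_coeff (h : K →+ R) (p : K[X]) (n : ℕ) : (cmap h p).coeff n = h (p.coeff n) := by
  show (∑ j ∈ p.support, monomial j (h (p.coeff j))).coeff n = _
  simp only [finsetSum_coeff, coeff_monomial, Finset.sum_ite_eq', mem_support_iff, ne_eq]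
  by_cases h1 : p.coeff n = 0 <;> simp [h1]

end

section
variable {k : Type} [Field k]

/-- left multiplication by `∇` -/
def del : (LaurentSeries k)[X] →+ (LaurentSeries k)[X] :=
  cmap (tht k) + (AddMonoidHom.mulLeft (X : (LaurentSeries k)[X]))

lemma del_apply (p : (LaurentSeries k)[X]) : del p = cmap (tht k) p + X * p := rfl

/-- the coefficient functional -/
def cofA (m : ℤ) : LaurentSeries k →+ k where
  toFun x := x.coeff m
  map_zero' := rfl
  map_add' _ _ := rfl

/-- all coefficients have order `≥ a` -/
def POrd (a : ℤ) (p : (LaurentSeries k)[X]) : Prop := ∀ n, OrdGe a (p.coeff n)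

/-- the leading form -/
def red (a : ℤ) : (LaurentSeries k)[X] →+ k[X] := cmap (cofA a)

lemma red_coeff (a : ℤ) (p : (LaurentSeries k)[X]) (n : ℕ) :
    (red a p).coeff n = (p.coeff n).coeff a := cmap_coeff _ _ _

lemma del_coeff_zero (p : (LaurentSeries k)[X]) : (del p).coeff 0 = tht k (p.coeff 0) := by
  rw [del_apply, coeff_add, cmap_coeff, mul_coeff_zero, coeff_X_zero, zero_mul, add_zero]

lemma del_coeff_succ (p : (LaurentSeries k)[X]) (n : ℕ) :
    (del p).coeff (n + 1) = tht k (p.coeff (n + 1)) + p.coeff n := by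
  rw [del_apply, coeff_add, cmap_coeff, coeff_X_mul]

lemma del_pord {a : ℤ} {p : (LaurentSeries k)[X]} (h : POrd a p) : POrd a (del p) := by
  intro n
  cases n with
  | zero => rw [del_coeff_zero]; exact ordGe_tht (h 0)
  | succ n => rw [del_coeff_succ]; exact ordGe_add (ordGe_tht (h _)) (h _)

lemma red_del (a : ℤ) (p : (LaurentSeries k)[X]) :
    red a (del p) = (X + C (a : k)) * red a p := by
  ext n
  rw [add_mul, coeff_add, coeff_C_mul, red_coeff, red_coeff]
  cases n with
  | zero =>
    rw [del_coeff_zero, tht_coeff, mul_coeff_zero, coeff_X_zero, zero_mul, zero_add]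
  | succ n =>
    rw [del_coeff_succ, HahnSeries.coeff_add, tht_coeff, coeff_X_mul, red_coeff]
    ring

lemma del_iter (a : ℤ) {p : (LaurentSeries k)[X]} (h : POrd a p) (i : ℕ) :
    POrd a (del^[i] p) ∧ red a (del^[i] p) = (X + C (a : k)) ^ i * red a p := by
  induction i with
  | zero => exact ⟨h, by simp⟩
  | succ i ih =>
    rw [Function.iterate_succ_apply']
    refine ⟨del_pord ih.1, ?_⟩
    rw [red_del, ih.2, pow_succ]
    ring

lemma coeff_mul_lead {x y : LaurentSeries k} {a b : ℤ} (hx : OrdGe a x) (hy : OrdGe b y) :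
    (x * y).coeff (a + b) = x.coeff a * y.coeff b := by
  rw [HahnSeries.coeff_mul, Finset.sum_eq_single (a, b)]
  · rintro ⟨u, v⟩ huv hne
    rw [Finset.mem_antidiagonal] at huv
    obtain ⟨_, _, h3⟩ := huv
    simp only at h3 ⊢
    rcases lt_trichotomy u a with h | h | h
    · rw [hx u h, zero_mul]
    · subst h
      exact absurd (by rw [show v = b by omega]) hne
    · rw [hy v (by omega), mul_zero]
  · intro hn
    rw [Finset.mem_antidiagonal] at hn
    simp only [HahnSeries.mem_support, and_true, not_and_or, not_not] at hn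
    rcases hn with h | h
    · rw [h, zero_mul]
    · rw [h, mul_zero]

lemma red_C_mul {a b : ℤ} {q : LaurentSeries k} {p : (LaurentSeries k)[X]} (hq : OrdGe b q)
    (hp : POrd a p) : red (b + a) (C q * p) = C (q.coeff b) * red a p := by
  ext n
  rw [red_coeff, coeff_C_mul, coeff_C_mul, red_coeff, coeff_mul_lead hq (hp n)]

lemma exists_ordGe (x : LaurentSeries k) : ∃ s : ℕ, OrdGe (-(s : ℤ)) x := by
  by_cases hx : x = 0
  · subst hx; exact ⟨0, ordGe_zero⟩
  · refine ⟨(-x.order).toNat, fun i hi => ?_⟩
    apply HahnSeries.coeff_eq_zero_of_lt_order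
    have := Int.self_le_toNat (-x.order)
    omega

/-- the pole order of a finite family: it is attained if positive -/
lemma exists_pole {ι : Type} [Fintype ι] (f : ι → LaurentSeries k) :
    ∃ s : ℕ, (∀ j, OrdGe (-(s : ℤ)) (f j)) ∧ (0 < s → ∃ j, (f j).coeff (-(s : ℤ)) ≠ 0) := by
  classical
  have hex : ∃ s : ℕ, ∀ j, OrdGe (-(s : ℤ)) (f j) := by
    choose g hg using fun j => exists_ordGe (f j)
    refine ⟨Finset.univ.sup g, fun j => ordGe_mono ?_ (hg j)⟩
    have := Finset.le_sup (f := g) (Finset.mem_univ j)
    omega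
  refine ⟨Nat.find hex, Nat.find_spec hex, fun hpos => ?_⟩
  by_contra hcon
  push Not at hcon
  have hmin := Nat.find_min hex (m := Nat.find hex - 1) (by omega)
  apply hmin
  intro j i hi
  rcases lt_or_ge i (-(Nat.find hex : ℤ)) with h | h
  · exact Nat.find_spec hex j i h
  · have : i = -(Nat.find hex : ℤ) := by omega
    rw [this]
    exact hcon j

section ev
variable {V : Type} [AddCommGroup V] [Module (LaurentSeries k) V] (T : V →+ V)
  (hT : ∀ (a : LaurentSeries k) (v : V), T (a • v) = tht k a • v + a • T v) (x : V)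

/-- evaluation at `x` -/
def ev : (LaurentSeries k)[X] →+ V where
  toFun p := p.sum fun j a => a • (T^[j] x)
  map_zero' := by simp
  map_add' p q := by
    rw [Polynomial.sum_add_index]
    · intro i; simp
    · intro i a b; rw [add_smul]

lemma ev_monomial (j : ℕ) (a : LaurentSeries k) : ev T x (monomial j a) = a • (T^[j] x) := by
  exact Polynomial.sum_monomial_index a (fun (j : ℕ) (a : LaurentSeries k) => a • (T^[j] x))
    (zero_smul _ _)

lemma ev_C_mul (a : LaurentSeries k) (p : (LaurentSeries k)[X]) :
    ev T x (C a * p) = a • ev T x p := by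
  induction p using Polynomial.induction_on' with
  | add p q hp hq => rw [mul_add, map_add, map_add, hp, hq, smul_add]
  | monomial j b => rw [C_mul_monomial, ev_monomial, ev_monomial, mul_smul]

include hT in
lemma ev_del (p : (LaurentSeries k)[X]) : ev T x (del p) = T (ev T x p) := by
  induction p using Polynomial.induction_on' with
  | add p q hp hq => rw [map_add, map_add, map_add, hp, hq, map_add]
  | monomial j b =>
    have e : del (monomial j b) = monomial j (tht k b) + monomial (j + 1) b := by
      rw [del_apply]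
      congr 1
      · ext n : 1
        rw [cmap_coeff, coeff_monomial, coeff_monomial]
        split_ifs <;> simp
      · rw [X_mul_monomial]
    rw [e, map_add, ev_monomial, ev_monomial, ev_monomial, hT, Function.iterate_succ_apply']

include hT in
lemma ev_del_iter (p : (LaurentSeries k)[X]) (h : ev T x p = 0) (i : ℕ) :
    ev T x (del^[i] p) = 0 := by
  induction i with
  | zero => exact h
  | succ i ih => rw [Function.iterate_succ_apply', ev_del T hT, ih, map_zero]

end ev

lemma end_sum_apply {V ι : Type} [AddCommGroup V] (s : Finset ι) (F : ι → AddMonoid.End V)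
    (x : V) : (∑ i ∈ s, F i) x = ∑ i ∈ s, F i x := by
  classical
  induction s using Finset.induction_on with
  | empty => rfl
  | insert a s ha ih =>
    rw [Finset.sum_insert ha, Finset.sum_insert ha, ← ih]
    rfl

/-- degree and leading coefficient of the iterates -/
lemma del_iter_coeff {P : (LaurentSeries k)[X]} {m : ℕ} (h1 : P.coeff m = 1)
    (h2 : ∀ n, m < n → P.coeff n = 0) (i : ℕ) :
    (del^[i] P).coeff (m + i) = 1 ∧ ∀ n, m + i < n → (del^[i] P).coeff n = 0 := by
  induction i with
  | zero => exact ⟨h1, h2⟩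
  | succ i ih =>
    rw [Function.iterate_succ_apply']
    constructor
    · rw [← add_assoc, del_coeff_succ, ih.1, ih.2 _ (by omega), map_zero, zero_add]
    · intro n hn
      obtain ⟨n, rfl⟩ : ∃ n', n = n' + 1 := ⟨n - 1, by omega⟩
      rw [del_coeff_succ, ih.2 _ (by omega), ih.2 _ (by omega), map_zero, zero_add]

lemma division {V : Type} [AddCommGroup V] [Module (LaurentSeries k) V] (T : V →+ V)
    (hT : ∀ (a : LaurentSeries k) (v : V), T (a • v) = tht k a • v + a • T v) (x : V)
    {P : (LaurentSeries k)[X]} {m : ℕ} (h1 : P.coeff m = 1)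
    (h2 : ∀ n, m < n → P.coeff n = 0) (hP : ev T x P = 0)
    (hli : LinearIndependent (LaurentSeries k) (fun j : Fin m => T^[(j : ℕ)] x)) (n : ℕ) :
    ∀ p : (LaurentSeries k)[X], (∀ j, m + n ≤ j → p.coeff j = 0) → ev T x p = 0 →
      ∃ q : Fin n → LaurentSeries k, p = ∑ i, C (q i) * del^[(i : ℕ)] P := by
  induction n with
  | zero =>
    intro p hp hev
    refine ⟨fun _ => 0, ?_⟩
    rw [Finset.univ_eq_empty, Finset.sum_empty]
    have hsum : ev T x p = ∑ j : Fin m, p.coeff j • (T^[(j : ℕ)] x) := by
      have hps : p = ∑ j : Fin m, monomial (j : ℕ) (p.coeff j) := by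
        ext n : 1
        rw [finsetSum_coeff]
        simp only [coeff_monomial]
        rcases lt_or_ge n m with h | h
        · rw [Finset.sum_eq_single (⟨n, h⟩ : Fin m)]
          · simp
          · intro b _ hb
            rw [if_neg]
            intro e
            exact hb (Fin.ext e)
          · intro hn
            exact absurd (Finset.mem_univ _) hn
        · rw [hp n (by omega), Finset.sum_eq_zero]
          intro j _
          rw [if_neg]
          have := j.2
          omega
      conv_lhs => rw [hps]
      rw [map_sum]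
      exact Finset.sum_congr rfl fun j _ => ev_monomial T x _ _
    rw [hsum] at hev
    have := Fintype.linearIndependent_iff.mp hli (fun j => p.coeff j) hev
    ext n : 1
    rcases lt_or_ge n m with h | h
    · exact this ⟨n, h⟩
    · exact hp n (by omega)
  | succ n ih =>
    intro p hp hev
    have hd := del_iter_coeff h1 h2 n
    obtain ⟨q, hq⟩ := ih (p - C (p.coeff (m + n)) * del^[n] P) (by
      intro j hj
      rw [coeff_sub, coeff_C_mul]
      rcases Nat.eq_or_lt_of_le hj with h | h
      · subst h
        rw [hd.1, mul_one, sub_self]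
      · rw [hd.2 j h, mul_zero, sub_zero, hp j (by omega)]) (by
      rw [map_sub, ev_C_mul, ev_del_iter T hT x P hP, hev, smul_zero, sub_zero])
    refine ⟨Fin.snoc q (p.coeff (m + n)), ?_⟩
    rw [Fin.sum_univ_castSucc]
    simp only [Fin.snoc_castSucc, Fin.snoc_last, Fin.val_castSucc, Fin.val_last]
    rw [← hq]
    ring

end

theorem regp : RegpStmt := by
  intro k _ I _ _ Q x m f g hg hev hli hrel
  set T : (I → LaurentSeries k) →+ (I → LaurentSeries k) := nbv (tht k) Q with hTdef
  have hpow : ∀ j : ℕ, ∀ v, ((nbE (tht k) Q) ^ j) v = T^[j] v := by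
    intro j
    induction j with
    | zero => intro v; rfl
    | succ j ih => 
      intro v
      rw [pow_succ', Function.iterate_succ_apply', ← ih]
      rfl
  have hT : ∀ (a : LaurentSeries k) (v : I → LaurentSeries k),
      T (a • v) = tht k a • v + a • T v := by
    intro a v
    funext i
    show tht k (a • v i) + (Q.mulVec (a • v)) i = _
    rw [Matrix.mulVec_smul, smul_eq_mul, tht_der, Pi.add_apply, Pi.smul_apply, Pi.smul_apply,
      Pi.smul_apply, smul_eq_mul, smul_eq_mul, smul_eq_mul]
    show _ = _ + a * (tht k (v i) + (Q.mulVec v) i)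
    ring
  simp only [hpow] at hli hrel
  set P : (LaurentSeries k)[X] := X ^ m - ∑ j : Fin m, monomial (j : ℕ) (f j) with hPdef
  have hPc : ∀ n, P.coeff n = (if n = m then 1 else 0) -
      ∑ j : Fin m, if (j : ℕ) = n then f j else 0 := by
    intro n
    rw [hPdef, coeff_sub, coeff_X_pow, finsetSum_coeff]
    simp only [coeff_monomial]
  have hPm : P.coeff m = 1 := by
    rw [hPc, if_pos rfl, Finset.sum_eq_zero, sub_zero]
    intro j _
    rw [if_neg (by have := j.2; omega)]
  have hPhi : ∀ n, m < n → P.coeff n = 0 := by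
    intro n hn
    rw [hPc, if_neg (by omega), Finset.sum_eq_zero, sub_zero]
    intro j _
    rw [if_neg (by have := j.2; omega)]
  have hPlo : ∀ j : Fin m, P.coeff j = - f j := by
    intro j
    rw [hPc, if_neg (by have := j.2; omega), Finset.sum_eq_single j]
    · simp
    · intro b _ hb
      rw [if_neg (fun e => hb (Fin.ext e))]
    · intro h
      exact absurd (Finset.mem_univ _) h
  have hPev : ev T x P = 0 := by
    rw [hPdef, map_sub, map_sum, ← monomial_one_right_eq_X_pow, ev_monomial, one_smul, hrel]
    simp only [ev_monomial]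
    exact sub_self _
  obtain ⟨s, hs, hs'⟩ := exists_pole f
  rcases Nat.eq_zero_or_pos s with h0 | hspos
  · subst h0
    intro j
    have := hs j
    rwa [Nat.cast_zero, neg_zero] at this
  exfalso
  have hPord : POrd (-(s : ℤ)) P := by
    intro n
    rw [hPc]
    refine ordGe_sub ?_ (ordGe_sum _ _ _ fun j _ => ?_)
    · split_ifs
      · exact ordGe_mono (by omega) ordGe_one
      · exact ordGe_zero
    · split_ifs
      · exact hs j
      · exact ordGe_zero
  have hredP : red (-(s : ℤ)) P ≠ 0 := by
    obtain ⟨j, hj⟩ := hs' hspos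
    intro h
    have := congrArg (fun p => p.coeff (j : ℕ)) h
    simp only [red_coeff, hPlo, coeff_zero, HahnSeries.coeff_neg, neg_eq_zero] at this
    exact hj this
  -- the polynomial g
  set G : (LaurentSeries k)[X] := g.map (Int.castRingHom (LaurentSeries k)) with hG
  have hGev : ev T x G = 0 := by
    have e1 : ev T x G = ∑ j ∈ Finset.range (g.natDegree + 1),
        (Int.castRingHom (LaurentSeries k) (g.coeff j)) • (T^[j] x) := by
      have : G = ∑ j ∈ Finset.range (g.natDegree + 1),
          monomial j (Int.castRingHom (LaurentSeries k) (g.coeff j)) := by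
        conv_lhs => rw [hG, g.as_sum_range]
        rw [Polynomial.map_sum]
        simp only [Polynomial.map_monomial]
      rw [this, map_sum]
      exact Finset.sum_congr rfl fun j _ => ev_monomial T x _ _
    rw [e1, ← hev, Polynomial.aeval_eq_sum_range, end_sum_apply]
    refine Finset.sum_congr rfl fun j _ => ?_
    rw [← hpow, Int.coe_castRingHom, Int.cast_smul_eq_zsmul]
    rfl
  have hGc : ∀ n, OrdGe 0 (G.coeff n) := by
    intro n
    rw [hG, coeff_map]
    have : Int.castRingHom (LaurentSeries k) (g.coeff n) = HahnSeries.C ((g.coeff n : ℤ) : k) := by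
      rw [map_intCast]; rfl
    rw [this]
    exact ordGe_C _
  have hGne : G ≠ 0 := (hg.map _).ne_zero
  have hdeg : m ≤ g.natDegree := by
    by_contra hlt
    push Not at hlt
    obtain ⟨q, hq⟩ := division T hT x hPm hPhi hPev hli 0 G (by
      intro j hj
      rw [hG, coeff_map, coeff_eq_zero_of_natDegree_lt (by omega), map_zero]) hGev
    apply hGne
    rw [hq]
    simp
  obtain ⟨e, he⟩ : ∃ e, g.natDegree = m + e := ⟨g.natDegree - m, by omega⟩
  obtain ⟨q, hq⟩ := division T hT x hPm hPhi hPev hli (e + 1) G (by
      intro j hj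
      rw [hG, coeff_map, coeff_eq_zero_of_natDegree_lt (by omega), map_zero]) hGev
  have hqlast : q (Fin.last e) = 1 := by
    have h1 := congrArg (fun p => p.coeff (m + e)) hq
    simp only [finsetSum_coeff, coeff_C_mul] at h1
    rw [Fin.sum_univ_castSucc, Finset.sum_eq_zero, zero_add, Fin.val_last,
      (del_iter_coeff hPm hPhi e).1, mul_one] at h1
    · rw [← h1, hG, coeff_map, ← he, hg.coeff_natDegree, map_one]
    · intro i _
      rw [(del_iter_coeff hPm hPhi _).2 _ (by have := i.2; simp only [Fin.val_castSucc]; omega),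
        mul_zero]
  obtain ⟨s', ht, ht'⟩ := exists_pole q
  have hqne : ∃ j, (q j).coeff (-(s' : ℤ)) ≠ 0 := by
    rcases Nat.eq_zero_or_pos s' with h0 | hpos
    · refine ⟨Fin.last e, ?_⟩
      rw [hqlast, h0, Nat.cast_zero, neg_zero, HahnSeries.coeff_one, if_pos rfl]
      exact one_ne_zero
    · exact ht' hpos
  have hred : red (-(s' : ℤ) + -(s : ℤ)) G =
      (∑ i : Fin (e + 1), C ((q i).coeff (-(s' : ℤ))) * (X + C ((-(s : ℤ) : ℤ) : k)) ^ (i : ℕ)) *
        red (-(s : ℤ)) P := by
    conv_lhs => rw [hq]
    rw [map_sum, Finset.sum_mul]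
    refine Finset.sum_congr rfl fun i _ => ?_
    have := del_iter (-(s : ℤ)) hPord (i : ℕ)
    rw [red_C_mul (ht i) this.1, this.2]
    ring
  have hred0 : red (-(s' : ℤ) + -(s : ℤ)) G = 0 := by
    ext n
    rw [red_coeff, coeff_zero]
    exact hGc n _ (by omega)
  rw [hred0] at hred
  rcases mul_eq_zero.mp hred.symm with h | h
  · have h2 : (∑ i : Fin (e + 1), C ((q i).coeff (-(s' : ℤ))) *
        (X + C ((-(s : ℤ) : ℤ) : k)) ^ (i : ℕ)) =
        taylor ((-(s : ℤ) : ℤ) : k)
          (∑ i : Fin (e + 1), C ((q i).coeff (-(s' : ℤ))) * X ^ (i : ℕ)) := by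
      rw [map_sum]
      refine Finset.sum_congr rfl fun i _ => ?_
      rw [taylor_mul, taylor_C, taylor_pow, taylor_X]
    rw [h2, ← map_zero (taylor ((-(s : ℤ) : ℤ) : k))] at h
    have h3 := taylor_injective _ h
    obtain ⟨j, hj⟩ := hqne
    apply hj
    have h4 := congrArg (fun p => p.coeff (j : ℕ)) h3
    simp only [finsetSum_coeff, coeff_C_mul, coeff_X_pow, coeff_zero] at h4
    rw [Finset.sum_eq_single j] at h4
    · simpa using h4
    · intro b _ hb
      rw [if_neg (fun e => hb (Fin.ext e.symm)), mul_zero]
    · intro h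
      exact absurd (Finset.mem_univ _) h
  · exact hredP h

end Pool.Agent.Helper95_CM.H18
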