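import Pool.Agent.Helper95_CM.StF

/-!
# CM project: module VBIN
-/

set_option autoImplicit false
set_option linter.unusedSectionVars false

noncomputable section

namespace Pool.Agent.Helper95_CM.H18

open Pool.Agent.Helper95_CM

lemma smeval_desc {p : ℕ} [Fact p.Prime] (a : ℤ_[p]) (n : ℕ) :
    (descPochhammer ℤ n).smeval a = ∏ j ∈ Finset.range n, (a - (j : ℤ_[p])) := by
  induction n with
  | zero => simp
  | succ n ih =>
    rw [descPochhammer_succ_right, Polynomial.smeval_mul, ih, Finset.prod_range_succ,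
      Polynomial.smeval_sub, Polynomial.smeval_X, Polynomial.smeval_natCast]
    simp

lemma exists_binom {p : ℕ} [Fact p.Prime] (a : ℤ_[p]) (n : ℕ) :
    ∃ v : ℤ_[p], (n.factorial : ℤ_[p]) * v = ∏ j ∈ Finset.range n, (a - (j : ℤ_[p])) := by
  refine ⟨Ring.choose a n, ?_⟩
  rw [← smeval_desc, Ring.descPochhammer_eq_factorial_smul_choose, nsmul_eq_mul]

lemma dvd_iff_norm {p : ℕ} [Fact p.Prime] (a : ℤ_[p]) (n : ℕ) :
    (p : ℤ_[p]) ^ n ∣ a ↔ ‖a‖ ≤ (p : ℝ) ^ (-n : ℤ) := by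
  rw [PadicInt.norm_le_pow_iff_mem_span_pow, Ideal.mem_span_singleton]

lemma norm_prod_fac {p : ℕ} [Fact p.Prime] (n j0 : ℕ) (hj : j0 < n) :
    ‖(n.factorial : ℤ_[p])‖ ≤
      ∏ j ∈ (Finset.range n).erase j0, ‖((j : ℤ_[p]) - (j0 : ℤ_[p]))‖ := by
  obtain ⟨k, rfl⟩ : ∃ k, n = j0 + 1 + k := ⟨n - (j0 + 1), by omega⟩
  have h1 : ∏ j ∈ (Finset.range (j0 + 1 + k)).erase j0, ‖((j : ℤ_[p]) - (j0 : ℤ_[p]))‖ =
      (∏ j ∈ Finset.range j0, ‖((j : ℤ_[p]) - (j0 : ℤ_[p]))‖) *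
        ∏ i ∈ Finset.range k, ‖(((j0 + 1 + i : ℕ) : ℤ_[p]) - (j0 : ℤ_[p]))‖ := by
    have e : ∀ s : Finset ℕ, ∏ j ∈ s.erase j0, ‖((j : ℤ_[p]) - (j0 : ℤ_[p]))‖ =
        ∏ j ∈ s, (if j = j0 then 1 else ‖((j : ℤ_[p]) - (j0 : ℤ_[p]))‖) := by
      intro s
      by_cases hs : j0 ∈ s
      · rw [← Finset.mul_prod_erase s _ hs]
        simp only [if_true, one_mul]
        refine Finset.prod_congr rfl fun j hj => ?_
        rw [if_neg (Finset.ne_of_mem_erase hj)]
      · rw [Finset.erase_eq_of_notMem hs]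
        refine Finset.prod_congr rfl fun j hjs => ?_
        rw [if_neg (by intro e; exact hs (by rw [← e]; exact hjs))]
    rw [e, Finset.prod_range_add, Finset.prod_range_succ]
    simp only [if_true, mul_one]
    congr 1
    · refine Finset.prod_congr rfl fun j hj => ?_
      rw [if_neg (by have := Finset.mem_range.mp hj; omega)]
    · refine Finset.prod_congr rfl fun j hj => ?_
      rw [if_neg (by omega)]
  have h2 : ∏ i ∈ Finset.range k, ‖(((j0 + 1 + i : ℕ) : ℤ_[p]) - (j0 : ℤ_[p]))‖ =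
      ‖(k.factorial : ℤ_[p])‖ := by
    rw [← norm_prod, ← Finset.prod_range_add_one_eq_factorial k]
    push_cast
    congr 1
    exact Finset.prod_congr rfl fun i _ => by ring
  have h3 : ∏ j ∈ Finset.range j0, ‖((j : ℤ_[p]) - (j0 : ℤ_[p]))‖ =
      ‖(j0.factorial : ℤ_[p])‖ := by
    rw [← Finset.prod_range_add_one_eq_factorial j0, Nat.cast_prod, norm_prod,
      ← Finset.prod_range_reflect]
    refine Finset.prod_congr rfl fun i hi => ?_
    have := Finset.mem_range.mp hi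
    rw [← norm_neg]
    congr 1
    rw [Nat.cast_sub (by omega), Nat.cast_sub (by omega)]
    push_cast
    ring
  rw [h1, h2, h3, ← norm_mul]
  have hd : j0.factorial * k.factorial ∣ (j0 + 1 + k).factorial :=
    dvd_trans (mul_dvd_mul (Nat.factorial_dvd_factorial (Nat.le_succ j0)) dvd_rfl)
      (Nat.factorial_mul_factorial_dvd_factorial_add (j0 + 1) k)
  obtain ⟨c, hc⟩ := hd
  rw [hc]
  push_cast
  rw [norm_mul]
  exact mul_le_of_le_one_right (norm_nonneg _) (PadicInt.norm_le_one _)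

theorem vbin : VbinStmt := by
  intro p _ n N1 a hN1 h
  obtain ⟨v, hv⟩ := exists_binom a n
  refine ⟨v, hv, ?_⟩
  intro hdv
  rcases Nat.eq_zero_or_pos n with rfl | hn
  · simp only [Nat.factorial_zero, Nat.cast_one, one_mul, Finset.range_zero,
      Finset.prod_empty] at hv
    rw [hv, dvd_iff_norm, norm_one] at hdv
    have hp := (Fact.out : p.Prime).one_lt
    have : (p : ℝ) ^ (-N1 : ℤ) < 1 := by
      apply zpow_lt_one_of_neg₀
      · exact_mod_cast hp
      · omega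
    linarith
  obtain ⟨j0, hj0, hmin⟩ := Finset.exists_min_image (Finset.range n)
    (fun j => ‖a - (j : ℤ_[p])‖) ⟨0, Finset.mem_range.mpr hn⟩
  have hne := h j0 hj0
  rw [dvd_iff_norm, not_le] at hne
  have h1 : ‖a - (j0 : ℤ_[p])‖ * ∏ j ∈ (Finset.range n).erase j0,
      ‖((j : ℤ_[p]) - (j0 : ℤ_[p]))‖ ≤ ∏ j ∈ Finset.range n, ‖a - (j : ℤ_[p])‖ := by
    rw [← Finset.mul_prod_erase (Finset.range n) _ hj0]
    refine mul_le_mul_of_nonneg_left ?_ (norm_nonneg _)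
    refine Finset.prod_le_prod (fun j _ => norm_nonneg _) fun j hj => ?_
    have hj' := hmin j (Finset.mem_of_mem_erase hj)
    have e : ((j : ℤ_[p]) - (j0 : ℤ_[p])) = (a - (j0 : ℤ_[p])) - (a - (j : ℤ_[p])) := by ring
    rw [e]
    rw [sub_eq_add_neg]
    refine le_trans (PadicInt.nonarchimedean _ _) ?_
    rw [norm_neg]
    exact max_le hj' le_rfl
  have e1 : ∏ j ∈ Finset.range n, ‖a - (j : ℤ_[p])‖ = ‖(n.factorial : ℤ_[p])‖ * ‖v‖ := by
    rw [← norm_prod, ← hv, norm_mul]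
  rw [e1] at h1
  have h2 := norm_prod_fac (p := p) n j0 (Finset.mem_range.mp hj0)
  rw [dvd_iff_norm] at hdv
  have hfpos : 0 < ‖(n.factorial : ℤ_[p])‖ := by
    rw [norm_pos_iff]
    exact_mod_cast Nat.factorial_ne_zero n
  have h3 : ‖a - (j0 : ℤ_[p])‖ * ‖(n.factorial : ℤ_[p])‖ ≤ ‖(n.factorial : ℤ_[p])‖ * ‖v‖ :=
    le_trans (mul_le_mul_of_nonneg_left h2 (norm_nonneg _)) h1
  have h4 : ‖a - (j0 : ℤ_[p])‖ ≤ ‖v‖ := by
    rw [mul_comm] at h3
    exact le_of_mul_le_mul_left h3 hfpos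
  linarith

end Pool.Agent.Helper95_CM.H18
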